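import Mathlib
import Pool.Agent.W475.BH.Stm

set_option autoImplicit false

namespace Pool.Agent.W156.BH

open Complex MeasureTheory Filter Topology Pool.Agent.W475.BH

theorem norm_Gamma_le {w : ℂ} (hw : 0 < w.re) : ‖Complex.Gamma w‖ ≤ Real.Gamma w.re := by
  rw [Complex.Gamma_eq_integral hw, Real.Gamma_eq_integral hw, Complex.GammaIntegral]
  refine (norm_integral_le_integral_norm _).trans (le_of_eq ?_)
  refine setIntegral_congr_fun measurableSet_Ioi fun x hx => ?_
  have hx' : (0 : ℝ) < x := hx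
  simp only [norm_mul]
  rw [Complex.norm_cpow_eq_rpow_re_of_pos hx', Complex.norm_real, Real.norm_eq_abs,
    abs_of_pos (Real.exp_pos _)]
  simp

theorem Gamma_le_pow {y : ℝ} (hy : 1 < y) : Real.Gamma y ≤ Real.exp (y * Real.log y) := by
  obtain ⟨n, hn⟩ : ∃ n : ℕ, n = ⌈y⌉₊ - 1 := ⟨_, rfl⟩
  have h1 : (1 : ℕ) < ⌈y⌉₊ := by
    rw [Nat.lt_ceil]; exact_mod_cast hy
  have hn1 : n ≠ 0 := by omega
  have hn1' : 1 ≤ n := by omega
  have hceil : ⌈y⌉₊ = n + 1 := by omega
  have h2 : y ≤ n + 1 := by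
    have := Nat.le_ceil y
    rw [hceil] at this; exact_mod_cast this
  have h3 : (n : ℝ) < y := by
    have : n < ⌈y⌉₊ := by omega
    exact Nat.lt_ceil.1 this
  have h4 := Real.BohrMollerup.f_add_nat_le (f := Real.log ∘ Real.Gamma) (x := y - n) (n := n)
    Real.convexOn_log_Gamma (fun {z} hz => by
      simp only [Function.comp]
      rw [Real.Gamma_add_one hz.ne', Real.log_mul hz.ne' (Real.Gamma_pos_of_pos hz).ne', add_comm])
    hn1 (by linarith) (by linarith)
  simp only [Function.comp] at h4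
  have e : (n : ℝ) + (y - n) = y := by ring
  rw [e] at h4
  have hn0 : (0 : ℝ) < n := by positivity
  have h5 : Real.log (Real.Gamma n) ≤ (n - 1) * Real.log n := by
    obtain ⟨m, rfl⟩ : ∃ m, n = m + 1 := ⟨n - 1, by omega⟩
    have : Real.Gamma ((m + 1 : ℕ) : ℝ) = (m.factorial : ℝ) := by
      push_cast; exact Real.Gamma_nat_eq_factorial m
    rw [this]
    have h6 : (m.factorial : ℝ) ≤ ((m + 1 : ℕ) : ℝ) ^ m := by
      have := Nat.factorial_le_pow m
      calc (m.factorial : ℝ) ≤ ((m ^ m : ℕ) : ℝ) := by exact_mod_cast this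
        _ = (m : ℝ) ^ m := by push_cast; rfl
        _ ≤ _ := by gcongr; push_cast; linarith
    have h7 : Real.log (m.factorial : ℝ) ≤ Real.log (((m + 1 : ℕ) : ℝ) ^ m) :=
      Real.log_le_log (by positivity) h6
    rw [Real.log_pow] at h7
    push_cast at h7 ⊢
    linarith
  have hlog : 0 ≤ Real.log n := Real.log_nonneg (by exact_mod_cast hn1')
  have h8 : Real.log (Real.Gamma y) ≤ y * Real.log y := by
    have h9 : Real.log n ≤ Real.log y := Real.log_le_log hn0 h3.le
    calc Real.log (Real.Gamma y) ≤ (n - 1) * Real.log n + (y - n) * Real.log n := by linarith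
      _ = (y - 1) * Real.log n := by ring
      _ ≤ y * Real.log n := by nlinarith
      _ ≤ y * Real.log y := by
        apply mul_le_mul_of_nonneg_left h9; linarith
  rw [← Real.log_le_iff_le_exp (Real.Gamma_pos_of_pos (by linarith))]
  exact h8

/-- growth of the exponent. -/
theorem grow {s b : ℝ} (hs : 0 ≤ s) (hb : 1 ≤ b) (hb2 : b ≤ 3 * (1 + s)) :
    b * Real.log b ≤ 6 * (1 + s) * Real.log (2 + s) := by
  have h1 : b ≤ (2 + s) ^ 2 := by nlinarith
  have h2 : Real.log b ≤ 2 * Real.log (2 + s) := by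
    have := Real.log_le_log (by linarith : (0 : ℝ) < b) h1
    rw [Real.log_pow] at this
    push_cast at this; exact this
  have h3 : 0 ≤ Real.log b := Real.log_nonneg hb
  calc b * Real.log b ≤ (3 * (1 + s)) * (2 * Real.log (2 + s)) := by gcongr
    _ = _ := by ring

theorem log2s {s : ℝ} (hs : 0 ≤ s) : 1 / 2 ≤ Real.log (2 + s) := by
  have h := Real.log_two_gt_d9
  have : Real.log 2 ≤ Real.log (2 + s) := Real.log_le_log (by norm_num) (by linarith)
  linarith

theorem exp_neg_abs_integrable : Integrable (fun v : ℝ => Real.exp (-|v|)) := by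
  have h : IntegrableOn (fun v : ℝ => Real.exp (-|v|)) (Set.Ioi 0) :=
    (integrableOn_exp_neg_Ioi 0).congr_fun (fun x hx => by
      rw [abs_of_pos (show (0 : ℝ) < x from hx)]) measurableSet_Ioi
  have h2 : IntegrableOn (fun v : ℝ => Real.exp (-|v|)) (Set.Iic 0) := by
    have h3 : IntegrableOn (fun v : ℝ => Real.exp v) (Set.Iic 0) := integrableOn_exp_Iic 0
    exact h3.congr_fun (fun x hx => by
      rw [abs_of_nonpos (show x ≤ 0 from hx), neg_neg]) measurableSet_Iic
  rw [← integrableOn_univ, ← Set.Iic_union_Ioi (a := (0 : ℝ))]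
  exact h2.union h

theorem integral_exp_neg_abs : ∫ v : ℝ, Real.exp (-|v|) = 2 := by
  have := integral_comp_abs (f := fun v => Real.exp (-v))
  rw [this, integral_exp_neg_Ioi_zero]; norm_num

theorem ptw {a : ℝ} (ha : 1 ≤ a) (v : ℝ) :
    Real.exp (a * v) * Real.exp (-(Real.pi * Real.exp (2 * v))) ≤
      Real.exp ((a + 1) / 2 * Real.log ((a + 1) / 2)) * Real.exp (-|v|) := by
  rw [← Real.exp_add, ← Real.exp_add]
  apply Real.exp_le_exp.2
  have hb : 1 ≤ (a + 1) / 2 := by linarith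
  have hlog : 0 ≤ Real.log ((a + 1) / 2) := Real.log_nonneg hb
  have hbl : 0 ≤ (a + 1) / 2 * Real.log ((a + 1) / 2) := by positivity
  rcases le_total v 0 with hv | hv
  · rw [abs_of_nonpos hv]
    have : 0 < Real.pi * Real.exp (2 * v) := by positivity
    nlinarith
  · rw [abs_of_nonneg hv]
    set b := (a + 1) / 2 with hbdef
    have hx : 0 < Real.exp (2 * v) := Real.exp_pos _
    have h1 : Real.log (Real.exp (2 * v) / b) ≤ Real.exp (2 * v) / b - 1 :=
      Real.log_le_sub_one_of_pos (by positivity)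
    rw [Real.log_div hx.ne' (by linarith), Real.log_exp] at h1
    have h2 : b * (2 * v - Real.log b) ≤ b * (Real.exp (2 * v) / b - 1) :=
      mul_le_mul_of_nonneg_left h1 (by linarith)
    have h3 : b * (Real.exp (2 * v) / b - 1) = Real.exp (2 * v) - b := by
      field_simp
    rw [h3] at h2
    have h4 : Real.exp (2 * v) ≤ Real.pi * Real.exp (2 * v) := by
      nlinarith [Real.pi_gt_three]
    have h5 : a = 2 * b - 1 := by rw [hbdef]; ring
    rw [h5]
    nlinarith

theorem GG_bound (κ : ℝ) (hκ : 0 < κ) (z : ℂ) (hz : 0 ≤ z.re) :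
    ‖GG κ z‖ ≤ Real.exp (100 * (1 + z.re) * Real.log (2 + z.re)) := by
  set s := z.re with hs
  set E := Real.exp (6 * (1 + s) * Real.log (2 + s)) with hE
  have hpt : ∀ v : ℝ, ‖((ph v * Real.exp (-(κ * v ^ 2)) : ℝ) : ℂ) * cexp (z * v)‖ ≤
      (50 * E) * Real.exp (-|v|) := by
    intro v
    rw [norm_mul, Complex.norm_real, Real.norm_eq_abs, Complex.norm_exp, abs_mul,
      abs_of_pos (Real.exp_pos (-(κ * v ^ 2)))]
    have hre : (z * (v : ℂ)).re = s * v := by simp [hs]
    rw [hre]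
    have h1 : Real.exp (-(κ * v ^ 2)) ≤ 1 := by
      apply Real.exp_le_one_iff.2
      have : 0 ≤ κ * v ^ 2 := by positivity
      linarith
    have h2 : |ph v| ≤ (2 * Real.pi ^ 2 * Real.exp (9 / 2 * v) + 3 * Real.pi * Real.exp (5 / 2 * v)) *
        Real.exp (-(Real.pi * Real.exp (2 * v))) := by
      unfold ph
      rw [abs_mul, abs_of_pos (Real.exp_pos (-(Real.pi * Real.exp (2 * v))))]
      apply mul_le_mul_of_nonneg_right _ (Real.exp_pos _).le
      rw [abs_le]
      have a1 : 0 < 2 * Real.pi ^ 2 * Real.exp (9 / 2 * v) := by positivity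
      have a2 : 0 < 3 * Real.pi * Real.exp (5 / 2 * v) := by positivity
      constructor <;> linarith
    have hA := ptw (a := 9 / 2 + s) (by linarith) v
    have hB := ptw (a := 5 / 2 + s) (by linarith) v
    have gA : Real.exp ((9 / 2 + s + 1) / 2 * Real.log ((9 / 2 + s + 1) / 2)) ≤ E := by
      apply Real.exp_le_exp.2
      exact grow hz (by linarith) (by linarith)
    have gB : Real.exp ((5 / 2 + s + 1) / 2 * Real.log ((5 / 2 + s + 1) / 2)) ≤ E := by
      apply Real.exp_le_exp.2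
      exact grow hz (by linarith) (by linarith)
    have hA' : Real.exp ((9 / 2 + s) * v) * Real.exp (-(Real.pi * Real.exp (2 * v))) ≤
        E * Real.exp (-|v|) := hA.trans (mul_le_mul_of_nonneg_right gA (Real.exp_pos _).le)
    have hB' : Real.exp ((5 / 2 + s) * v) * Real.exp (-(Real.pi * Real.exp (2 * v))) ≤
        E * Real.exp (-|v|) := hB.trans (mul_le_mul_of_nonneg_right gB (Real.exp_pos _).le)
    have eA : Real.exp ((9 / 2 + s) * v) = Real.exp (9 / 2 * v) * Real.exp (s * v) := by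
      rw [← Real.exp_add]; ring_nf
    have eB : Real.exp ((5 / 2 + s) * v) = Real.exp (5 / 2 * v) * Real.exp (s * v) := by
      rw [← Real.exp_add]; ring_nf
    have hEpos : 0 < E * Real.exp (-|v|) := by positivity
    have hpi : Real.pi < 3.15 := Real.pi_lt_d2
    have hpi3 := Real.pi_gt_three
    calc |ph v| * Real.exp (-(κ * v ^ 2)) * Real.exp (s * v)
        ≤ |ph v| * 1 * Real.exp (s * v) := by gcongr
      _ ≤ ((2 * Real.pi ^ 2 * Real.exp (9 / 2 * v) + 3 * Real.pi * Real.exp (5 / 2 * v)) *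
        Real.exp (-(Real.pi * Real.exp (2 * v)))) * 1 * Real.exp (s * v) := by gcongr
      _ = 2 * Real.pi ^ 2 * (Real.exp ((9 / 2 + s) * v) * Real.exp (-(Real.pi * Real.exp (2 * v)))) +
        3 * Real.pi * (Real.exp ((5 / 2 + s) * v) * Real.exp (-(Real.pi * Real.exp (2 * v)))) := by
          rw [eA, eB]; ring
      _ ≤ 2 * Real.pi ^ 2 * (E * Real.exp (-|v|)) + 3 * Real.pi * (E * Real.exp (-|v|)) := by
          gcongr
      _ = (2 * Real.pi ^ 2 + 3 * Real.pi) * (E * Real.exp (-|v|)) := by ring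
      _ ≤ 50 * (E * Real.exp (-|v|)) := by
          apply mul_le_mul_of_nonneg_right _ hEpos.le
          nlinarith
      _ = (50 * E) * Real.exp (-|v|) := by ring
  have hint : ‖∫ v : ℝ, ((ph v * Real.exp (-(κ * v ^ 2)) : ℝ) : ℂ) * cexp (z * v)‖ ≤
      ∫ v : ℝ, (50 * E) * Real.exp (-|v|) :=
    norm_integral_le_of_norm_le (exp_neg_abs_integrable.const_mul _)
      (Filter.Eventually.of_forall hpt)
  rw [integral_const_mul, integral_exp_neg_abs] at hint
  unfold GG
  rw [norm_mul]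
  have h16 : ‖(16 : ℂ)‖ = 16 := by norm_num
  rw [h16]
  have hl := log2s hz
  have hfin : (1600 : ℝ) ≤ Real.exp (20 * (1 + s) * Real.log (2 + s)) := by
    have h1 : (10 : ℝ) ≤ 20 * (1 + s) * Real.log (2 + s) := by nlinarith
    have h2 : Real.exp 10 ≤ Real.exp (20 * (1 + s) * Real.log (2 + s)) := Real.exp_le_exp.2 h1
    have h3 : (1600 : ℝ) ≤ Real.exp 10 := by
      have : Real.exp 10 = Real.exp 1 ^ 10 := by rw [← Real.exp_nat_mul]; norm_num
      rw [this]
      have h4 := Real.exp_one_gt_d9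
      calc (1600 : ℝ) ≤ 2.5 ^ 10 := by norm_num
        _ ≤ Real.exp 1 ^ 10 := by gcongr; linarith
    linarith
  calc 16 * ‖∫ v : ℝ, ((ph v * Real.exp (-(κ * v ^ 2)) : ℝ) : ℂ) * cexp (z * v)‖
      ≤ 16 * (50 * E * 2) := by gcongr
    _ = 1600 * E := by ring
    _ ≤ Real.exp (20 * (1 + s) * Real.log (2 + s)) * E := by gcongr
    _ = Real.exp (26 * ((1 + s) * Real.log (2 + s))) := by rw [hE, ← Real.exp_add]; ring_nf
    _ ≤ Real.exp (100 * (1 + s) * Real.log (2 + s)) := by
      apply Real.exp_le_exp.2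
      have : 0 ≤ (1 + s) * Real.log (2 + s) := by positivity
      nlinarith

theorem HH_bound (z : ℂ) (hz : 0 ≤ z.re) :
    ‖HH z‖ ≤ (1 + ‖z‖) ^ 2 * Real.exp (100 * (1 + z.re) * Real.log (2 + z.re)) := by
  set s := z.re with hs
  unfold HH
  rw [norm_mul]
  have h1 : ‖4 * z ^ 2 - 1‖ ≤ 4 * (1 + ‖z‖) ^ 2 := by
    calc ‖4 * z ^ 2 - 1‖ ≤ ‖4 * z ^ 2‖ + ‖(1 : ℂ)‖ := norm_sub_le _ _
      _ = 4 * ‖z‖ ^ 2 + 1 := by rw [norm_mul, norm_pow]; norm_num
      _ ≤ _ := by nlinarith [norm_nonneg z]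
  have hre : (1 / 2 + z).re = 1 / 2 + s := by simp [hs]
  have h2 : ‖Gammaℝ (1 / 2 + z)‖ ≤ Real.exp (10 * (1 + s) * Real.log (2 + s)) * 4 := by
    rw [Gammaℝ_def, norm_mul]
    have hp : ‖(Real.pi : ℂ) ^ (-(1 / 2 + z) / 2)‖ ≤ 1 := by
      rw [Complex.norm_cpow_eq_rpow_re_of_pos Real.pi_pos]
      apply Real.rpow_le_one_of_one_le_of_nonpos (by linarith [Real.pi_gt_three])
      have : (-(1 / 2 + z) / 2).re = -(1 / 2 + s) / 2 := by
        simp [hs]
      rw [this]; linarith
    have hre2 : ((1 / 2 + z) / 2).re = (1 / 2 + s) / 2 := by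
      simp [hs]
    have hg : ‖Complex.Gamma ((1 / 2 + z) / 2)‖ ≤ Real.Gamma ((1 / 2 + s) / 2) := by
      have := norm_Gamma_le (w := (1 / 2 + z) / 2) (by rw [hre2]; linarith)
      rwa [hre2] at this
    have hx : (0 : ℝ) < (1 / 2 + s) / 2 := by linarith
    have hg2 : Real.Gamma ((1 / 2 + s) / 2) ≤ 4 * Real.Gamma ((1 / 2 + s) / 2 + 1) := by
      rw [Real.Gamma_add_one hx.ne']
      have := Real.Gamma_pos_of_pos hx
      nlinarith
    have hg3 : Real.Gamma ((1 / 2 + s) / 2 + 1) ≤ Real.exp (6 * (1 + s) * Real.log (2 + s)) :=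
      (Gamma_le_pow (by linarith)).trans (Real.exp_le_exp.2 (grow hz (by linarith) (by linarith)))
    have hl := log2s hz
    have hm : Real.exp (6 * (1 + s) * Real.log (2 + s)) ≤ Real.exp (10 * (1 + s) * Real.log (2 + s)) := by
      apply Real.exp_le_exp.2
      have : 0 ≤ (1 + s) * Real.log (2 + s) := by positivity
      nlinarith
    calc ‖(Real.pi : ℂ) ^ (-(1 / 2 + z) / 2)‖ * ‖Complex.Gamma ((1 / 2 + z) / 2)‖
        ≤ 1 * Real.Gamma ((1 / 2 + s) / 2) := by gcongr
      _ ≤ 4 * Real.Gamma ((1 / 2 + s) / 2 + 1) := by linarith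
      _ ≤ 4 * Real.exp (10 * (1 + s) * Real.log (2 + s)) := by linarith
      _ = _ := by ring
  have hl := log2s hz
  have hfin : (16 : ℝ) ≤ Real.exp (20 * (1 + s) * Real.log (2 + s)) := by
    have h1 : (10 : ℝ) ≤ 20 * (1 + s) * Real.log (2 + s) := by nlinarith
    have h2 : Real.exp 10 ≤ Real.exp (20 * (1 + s) * Real.log (2 + s)) := Real.exp_le_exp.2 h1
    have h3 : (16 : ℝ) ≤ Real.exp 10 := by
      have : Real.exp 10 = Real.exp 1 ^ 10 := by rw [← Real.exp_nat_mul]; norm_num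
      rw [this]
      have h4 := Real.exp_one_gt_d9
      calc (16 : ℝ) ≤ 2.5 ^ 10 := by norm_num
        _ ≤ Real.exp 1 ^ 10 := by gcongr; linarith
    linarith
  calc ‖4 * z ^ 2 - 1‖ * ‖Gammaℝ (1 / 2 + z)‖
      ≤ (4 * (1 + ‖z‖) ^ 2) * (Real.exp (10 * (1 + s) * Real.log (2 + s)) * 4) := by gcongr
    _ = (1 + ‖z‖) ^ 2 * (16 * Real.exp (10 * (1 + s) * Real.log (2 + s))) := by ring
    _ ≤ (1 + ‖z‖) ^ 2 * (Real.exp (20 * (1 + s) * Real.log (2 + s)) *
        Real.exp (10 * (1 + s) * Real.log (2 + s))) := by gcongr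
    _ = (1 + ‖z‖) ^ 2 * Real.exp (30 * ((1 + s) * Real.log (2 + s))) := by
        rw [← Real.exp_add]; ring_nf
    _ ≤ _ := by
      apply mul_le_mul_of_nonneg_left _ (by positivity)
      apply Real.exp_le_exp.2
      have : 0 ≤ (1 + s) * Real.log (2 + s) := by positivity
      nlinarith

theorem t_GGC : S_GGC :=
  ⟨100, by norm_num, fun κ hκ z hz => GG_bound κ hκ z hz, fun z hz => HH_bound z hz⟩

end Pool.Agent.W156.BH
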